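import Pool.Agent.N210.SV.Core

/-!
# Means over Galois orbits and decoupling of the coordinates
-/

set_option autoImplicit false

namespace Pool.Agent.N210.SV

open Finset Pool.Agent.N210.EQ

variable {ι : Type} {Y : ι → Type}

namespace CMPoint

variable (s : CMPoint ι Y)

/-- the mean over the orbit is the mean over the Galois group -/
theorem mean_eq (Φ : (∀ j, Y j) → ℝ) : s.mean Φ = avg s.Gam (fun γ => Φ (s.point γ)) := by
  classical
  have : Fintype s.Gam := Fintype.ofFinite _
  rw [avg_eq]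
  unfold mean orbit
  have hset : Set.range s.point = ((univ.image s.point : Finset (∀ j, Y j)) : Set (∀ j, Y j)) := by
    simp
  rw [hset, finsum_mem_coe_finset, Set.ncard_coe_finset]
  have hfib : ∀ y ∈ (univ.image s.point : Finset (∀ j, Y j)),
      #{γ ∈ (univ : Finset s.Gam) | s.point γ = y} =
        #{γ ∈ (univ : Finset s.Gam) | s.point γ = s.point 1} := by
    intro y hy
    obtain ⟨γ0, -, rfl⟩ := mem_image.1 hy
    refine (card_bij (fun γ _ => γ0 * γ) ?_ ?_ ?_).symm
    · intro γ hγ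
      simp only [mem_filter, mem_univ, true_and] at hγ ⊢
      funext j
      have h := congrFun hγ j
      have h2 : s.at' j γ = s.at' j 1 := s.inj j h
      unfold point
      congr 1
      unfold at' at h2 ⊢
      rw [map_mul, Equiv.Perm.mul_apply, h2, map_one, Equiv.Perm.one_apply]
    · intro a _ b _ h
      exact mul_left_cancel h
    · intro γ hγ
      simp only [mem_filter, mem_univ, true_and] at hγ
      refine ⟨γ0⁻¹ * γ, ?_, by simp⟩
      simp only [mem_filter, mem_univ, true_and]
      funext j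
      have h := congrFun hγ j
      have h2 : s.at' j γ = s.at' j γ0 := s.inj j h
      unfold point
      congr 1
      unfold at' at h2 ⊢
      rw [map_mul, Equiv.Perm.mul_apply, h2, map_one, Equiv.Perm.one_apply, map_inv]
      simp
  set K := #{γ ∈ (univ : Finset s.Gam) | s.point γ = s.point 1} with hK
  have hKpos : 0 < K := card_pos.2 ⟨1, by simp⟩
  have h1 : ∑ γ : s.Gam, Φ (s.point γ) = (K : ℝ) * ∑ y ∈ univ.image s.point, Φ y := by
    rw [sum_comp Φ s.point, mul_sum]
    refine sum_congr rfl fun y hy => ?_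
    rw [hfib y hy, nsmul_eq_mul]
  have h2 : (Fintype.card s.Gam : ℝ) = (K : ℝ) * #(univ.image s.point) := by
    rw [← card_univ, card_eq_sum_card_image s.point, sum_congr rfl hfib, sum_const, smul_eq_mul]
    push_cast
    ring
  rw [h1, h2, mul_div_mul_left _ _ (by exact_mod_cast hKpos.ne')]

theorem mean_add (Φ Ψ : (∀ j, Y j) → ℝ) : s.mean (Φ + Ψ) = s.mean Φ + s.mean Ψ := by
  rw [mean_eq, mean_eq, mean_eq, ← avg_add]
  rfl

theorem mean_smul (c : ℝ) (Φ : (∀ j, Y j) → ℝ) : s.mean (c • Φ) = c * s.mean Φ := by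
  rw [mean_eq, mean_eq, ← avg_mul_left]
  rfl

theorem abs_mean_sub_le {Φ Ψ : (∀ j, Y j) → ℝ} {ε : ℝ} (h : ∀ y, |Φ y - Ψ y| ≤ ε) :
    |s.mean Φ - s.mean Ψ| ≤ ε := by
  rw [mean_eq, mean_eq, ← avg_sub]
  exact (abs_avg_le _).trans (avg_le fun γ => h _)

/-- the error of the equidistribution of the cosets of `U` in the `N`-orbit of `z`, on average over the
cosets -/
noncomputable def err (U : Subgroup s.N) (j : ι) (f : s.O j → ℝ) (z : s.O j) : ℝ :=
  avg s.N (fun g => |avg U (fun u => f (s.actHom j ((u : s.N) * g) z))|)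

/-- **Decoupling.** -/
theorem decouple [DecidableEq ι] {m : ℕ} (hs : s.Independent m) (j : ι)
    (f : s.O j → ℝ) (R : (∀ k, s.O k) → ℝ) {b e : ℝ}
    (hR : ∀ z z' : ∀ k, s.O k, (∀ k, k ≠ j → z k = z' k) → R z = R z')
    (hb : ∀ z, |R z| ≤ b)
    (he : ∀ γ, s.err (s.pow m) j f (s.at' j γ) ≤ e) :
    |avg s.Gam (fun γ => f (s.at' j γ) * R (fun k => s.at' k γ))| ≤ b * e := by
  classical
  have hb0 : 0 ≤ b := (abs_nonneg _).trans (hb s.x)
  -- average over `N` first
  have h1 : avg s.Gam (fun γ => f (s.at' j γ) * R (fun k => s.at' k γ)) =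
      avg s.Gam (fun γ => avg s.N (fun n => f (s.actHom j n (s.at' j γ)) *
        R (fun k => s.actHom k n (s.at' k γ)))) := by
    rw [avg_comm]
    have : ∀ n : s.N, avg s.Gam (fun γ => f (s.actHom j n (s.at' j γ)) *
        R (fun k => s.actHom k n (s.at' k γ))) =
        avg s.Gam (fun γ => f (s.at' j γ) * R (fun k => s.at' k γ)) := by
      intro n
      rw [← avg_equiv (Equiv.mulLeft (s.toGam n))
        (fun γ => f (s.at' j γ) * R (fun k => s.at' k γ))]
      congr 1
      funext γ
      simp only [Equiv.coe_mulLeft, at_mul]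
    simp only [this]
    rw [avg_const]
  rw [h1]
  refine (abs_avg_le _).trans (avg_le fun γ => ?_)
  -- now the inner mean
  have h2 : ∀ u : s.pow m, avg s.N (fun n => f (s.actHom j n (s.at' j γ)) *
        R (fun k => s.actHom k n (s.at' k γ))) =
      avg s.N (fun n => f (s.actHom j ((u : s.N) * n) (s.at' j γ)) *
        R (fun k => s.actHom k n (s.at' k γ))) := by
    intro u
    obtain ⟨σ, hσ, hσu⟩ := s.separation_at hs j γ u u.2
    rw [← avg_equiv (Equiv.mulLeft σ) (fun n => f (s.actHom j n (s.at' j γ)) *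
        R (fun k => s.actHom k n (s.at' k γ)))]
    congr 1
    funext n
    simp only [Equiv.coe_mulLeft]
    congr 1
    · rw [hσ n]
    · exact hR _ _ fun k hk => hσu k hk n
  have h3 : avg s.N (fun n => f (s.actHom j n (s.at' j γ)) *
        R (fun k => s.actHom k n (s.at' k γ))) =
      avg s.N (fun n => avg (s.pow m) (fun u => f (s.actHom j ((u : s.N) * n) (s.at' j γ))) *
        R (fun k => s.actHom k n (s.at' k γ))) := by
    have h4 : avg (s.pow m) (fun u => avg s.N (fun n =>
        f (s.actHom j ((u : s.N) * n) (s.at' j γ)) *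
        R (fun k => s.actHom k n (s.at' k γ)))) =
        avg s.N (fun n => f (s.actHom j n (s.at' j γ)) *
        R (fun k => s.actHom k n (s.at' k γ))) := by
      simp only [← h2]
      rw [avg_const]
    rw [← h4, avg_comm]
    simp only [avg_mul_right]
  rw [h3]
  refine (abs_avg_le _).trans ?_
  refine (avg_mono (g := fun n =>
    |avg (s.pow m) (fun u => f (s.actHom j ((u : s.N) * n) (s.at' j γ)))| * b)
    fun n => ?_).trans ?_
  · rw [abs_mul]
    gcongr
    exact hb _
  · rw [avg_mul_right, mul_comm]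
    gcongr
    exact he γ

/-- **Product functions.** -/
theorem product_bound [Fintype ι] [DecidableEq ι] {m : ℕ} (hs : s.Independent m)
    (f : ∀ j, s.O j → ℝ) (c b e : ι → ℝ)
    (hb1 : ∀ j, 1 ≤ b j) (hf : ∀ j z, |f j z| ≤ b j) (hc : ∀ j, |c j| ≤ b j)
    (he0 : ∀ j, 0 ≤ e j)
    (he : ∀ j γ, s.err (s.pow m) j (fun z => f j z - c j) (s.at' j γ) ≤ e j) (S : Finset ι) :
    |avg s.Gam (fun γ => ∏ j ∈ S, f j (s.at' j γ)) - ∏ j ∈ S, c j| ≤
      (∏ j ∈ S, b j) * ∑ j ∈ S, e j := by
  induction S using Finset.induction_on with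
  | empty => simp [avg_const]
  | @insert a S ha ih =>
    have hb0 : ∀ j, 0 ≤ b j := fun j => zero_le_one.trans (hb1 j)
    have hP : 0 ≤ ∏ j ∈ S, b j := prod_nonneg fun j _ => hb0 j
    have hE : 0 ≤ ∑ j ∈ S, e j := sum_nonneg fun j _ => he0 j
    have h1 : avg s.Gam (fun γ => ∏ j ∈ insert a S, f j (s.at' j γ)) - ∏ j ∈ insert a S, c j =
        c a * (avg s.Gam (fun γ => ∏ j ∈ S, f j (s.at' j γ)) - ∏ j ∈ S, c j) +
        avg s.Gam (fun γ => (f a (s.at' a γ) - c a) * ∏ j ∈ S, f j (s.at' j γ)) := by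
      rw [prod_insert ha, mul_sub, ← avg_mul_left]
      have : ∀ γ, ∏ j ∈ insert a S, f j (s.at' j γ) =
          c a * ∏ j ∈ S, f j (s.at' j γ) + (f a (s.at' a γ) - c a) * ∏ j ∈ S, f j (s.at' j γ) := by
        intro γ
        rw [prod_insert ha]
        ring
      simp only [this]
      rw [avg_add]
      ring
    have h2 : |avg s.Gam (fun γ => (f a (s.at' a γ) - c a) * ∏ j ∈ S, f j (s.at' j γ))| ≤
        (∏ j ∈ S, b j) * e a := by
      refine s.decouple hs a (fun z => f a z - c a) (fun z => ∏ j ∈ S, f j (z j)) ?_ ?_ (he a)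
      · intro z z' h
        refine prod_congr rfl fun k hk => ?_
        rw [h k (fun h' => ha (h' ▸ hk))]
      · intro z
        rw [abs_prod]
        exact prod_le_prod (fun _ _ => abs_nonneg _) fun k _ => hf k _
    rw [h1, prod_insert ha, sum_insert ha]
    calc |c a * (avg s.Gam (fun γ => ∏ j ∈ S, f j (s.at' j γ)) - ∏ j ∈ S, c j) +
        avg s.Gam (fun γ => (f a (s.at' a γ) - c a) * ∏ j ∈ S, f j (s.at' j γ))|
        ≤ |c a| * |avg s.Gam (fun γ => ∏ j ∈ S, f j (s.at' j γ)) - ∏ j ∈ S, c j| +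
          (∏ j ∈ S, b j) * e a := by
          refine (abs_add_le _ _).trans ?_
          rw [abs_mul]
          gcongr
      _ ≤ b a * ((∏ j ∈ S, b j) * ∑ j ∈ S, e j) + b a * ((∏ j ∈ S, b j) * e a) := by
          have h3 : (∏ j ∈ S, b j) * e a ≤ b a * ((∏ j ∈ S, b j) * e a) :=
            le_mul_of_one_le_left (mul_nonneg hP (he0 a)) (hb1 a)
          have h4 := mul_le_mul (hc a) ih (abs_nonneg _) (hb0 a)
          linarith
      _ = b a * (∏ j ∈ S, b j) * (e a + ∑ j ∈ S, e j) := by ring

/-- the image of `N` under the reciprocity map of the `j`-th coordinate -/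
def image (j : ι) : Subgroup (s.A j) := (s.r j (s.mu j)).range

theorem exists_pow_coprime (j : ι) {m : ℕ} (hm : (Nat.card (s.image j)).Coprime m) (u : s.N) :
    ∃ v ∈ s.pow m, s.r j (s.mu j) v = s.r j (s.mu j) u := by
  have hfin : Finite (s.image j) := by
    unfold image
    exact Finite.of_surjective _ (s.r j (s.mu j)).rangeRestrict_surjective
  obtain ⟨⟨a, w, rfl⟩, ha⟩ := (powCoprime hm).surjective
    (⟨s.r j (s.mu j) u, u, rfl⟩ : s.image j)
  rw [powCoprime_apply] at ha
  refine ⟨w ^ m, Subgroup.subset_closure ⟨w, rfl⟩, ?_⟩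
  rw [map_pow]
  exact congrArg Subtype.val ha

/-- If the exponent is prime to the order of the image, cosets of powers are whole orbits. -/
theorem err_coprime (j : ι) {m : ℕ} (hm : (Nat.card (s.image j)).Coprime m) (f : s.O j → ℝ)
    (γ : s.Gam) : s.err (s.pow m) j f (s.at' j γ) =
      |avg s.N (fun n => f (s.actHom j n (s.at' j γ)))| := by
  -- transitivity
  have h1 : ∀ n : s.N, ∃ v : s.pow m, s.actHom j n (s.at' j γ) = s.actHom j (v : s.N) (s.at' j γ) := by
    intro n
    obtain ⟨v, hv, hvn⟩ := s.exists_pow_coprime j hm (s.cj (γ : s.G)⁻¹ n)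
    refine ⟨⟨s.cj (γ : s.G) v, s.cj_mem_pow _ hv⟩, ?_⟩
    have h3 := s.at_eq j hvn
    rw [← s.at_mul, ← s.at_mul]
    have h4 : s.toGam n * γ = γ * s.toGam (s.cj (γ : s.G)⁻¹ n) := by
      apply Subtype.ext
      simp [toGam, cj, mul_assoc]
    have h5 : s.toGam (s.cj (γ : s.G) v) * γ = γ * s.toGam v := by
      apply Subtype.ext
      simp [toGam, cj, mul_assoc]
    rw [h4, h5]
    unfold at' at h3 ⊢
    rw [map_mul, map_mul, Equiv.Perm.mul_apply, Equiv.Perm.mul_apply, h3]
  have h2 : ∀ g : s.N, avg (s.pow m) (fun u => f (s.actHom j ((u : s.N) * g) (s.at' j γ))) =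
      avg (s.pow m) (fun u => f (s.actHom j (u : s.N) (s.at' j γ))) := by
    intro g
    obtain ⟨v, hv⟩ := h1 g
    rw [← avg_equiv (Equiv.mulRight v) (fun u => f (s.actHom j (u : s.N) (s.at' j γ)))]
    congr 1
    funext u
    rw [map_mul, Equiv.Perm.mul_apply, hv, Equiv.coe_mulRight, Subgroup.coe_mul, map_mul,
      Equiv.Perm.mul_apply]
  have h3 : avg s.N (fun n => f (s.actHom j n (s.at' j γ))) =
      avg (s.pow m) (fun u => f (s.actHom j (u : s.N) (s.at' j γ))) := by
    have h4 : ∀ u : s.pow m, avg s.N (fun n => f (s.actHom j ((u : s.N) * n) (s.at' j γ))) =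
        avg s.N (fun n => f (s.actHom j n (s.at' j γ))) := by
      intro u
      exact avg_equiv (Equiv.mulLeft (u : s.N)) (fun n => f (s.actHom j n (s.at' j γ)))
    calc avg s.N (fun n => f (s.actHom j n (s.at' j γ)))
        = avg (s.pow m) (fun u => avg s.N (fun n =>
            f (s.actHom j ((u : s.N) * n) (s.at' j γ)))) := by
          simp only [h4]
          rw [avg_const]
      _ = avg s.N (fun n => avg (s.pow m) (fun u =>
            f (s.actHom j ((u : s.N) * n) (s.at' j γ)))) := avg_comm _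
      _ = _ := by
          simp only [h2]
          rw [avg_const]
  unfold err
  simp only [h2]
  rw [avg_const, h3]

end CMPoint

end Pool.Agent.N210.SV
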