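import Pool.Agent.N210.EQ.Avg

/-!
# Galois orbits of special points in products of Shimura varieties: separating the coordinates
-/

set_option autoImplicit false

namespace Pool.Agent.N210.SV

open Finset Pool.Agent.N210.EQ

/-- Galois data of a special point `x = (x_j)` of a product of Shimura varieties `Y_j`:
`G = Gal(L/ℚ)`, `Gam = Gal(L/F)`, `N = Gal(L/M)` for finite Galois extensions `M ⊆ L` of `ℚ`, `F ⊆ M`;
`O j` is the orbit of `x_j` under `Gam`, `pt j` its inclusion in `Y_j`, `rho j` the Galois action;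
`X j` is the group of cocharacters of the torus `T_j` of `x_j` (modulo centre), `mu j` the cocharacter
of `x_j`; `r j ν : N → A j` is the reciprocity map `Nm_{M/ℚ} ∘ ν` with values in the commutative group
`A j = T_j(ℚ)\T_j(𝔸_f)/K_j`. -/
structure CMPoint (ι : Type) (Y : ι → Type) where
  G : Type
  [grp : Group G]
  [fin : Fintype G]
  Gam : Subgroup G
  N : Subgroup G
  normal : N.Normal
  le : N ≤ Gam
  O : ι → Type
  rho : ∀ j, Gam →* Equiv.Perm (O j)
  pt : ∀ j, O j → Y j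
  inj : ∀ j, Function.Injective (pt j)
  x : ∀ j, O j
  X : ι → Type
  [add : ∀ j, AddCommGroup (X j)]
  [dist : ∀ j, DistribMulAction G (X j)]
  mu : ∀ j, X j
  A : ι → Type
  [comm : ∀ j, CommGroup (A j)]
  r : ∀ j, X j → N →* A j
  r_add : ∀ j ν ν', r j (ν + ν') = r j ν * r j ν'
  r_conj : ∀ j (g : G) (ν : X j) (σ : G) (hσ : σ ∈ N),
    r j ν ⟨g * σ * g⁻¹, normal.conj_mem σ hσ g⟩ = r j (g⁻¹ • ν) ⟨σ, hσ⟩
  reciprocity : ∀ j (σ : G) (hσ : σ ∈ N), r j (mu j) ⟨σ, hσ⟩ = 1 →
    rho j ⟨σ, le hσ⟩ (x j) = x j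

attribute [instance] CMPoint.grp CMPoint.fin CMPoint.add CMPoint.dist CMPoint.comm

variable {ι : Type} {Y : ι → Type}

namespace CMPoint

variable (s : CMPoint ι Y)

/-- an element of `N` as an element of `Gam` -/
def toGam (σ : s.N) : s.Gam := ⟨σ, s.le σ.2⟩

/-- the `j`-th coordinate of `γ x` -/
def at' (j : ι) (γ : s.Gam) : s.O j := s.rho j γ (s.x j)

/-- the action of `N` on `O j` -/
def actHom (j : ι) : s.N →* Equiv.Perm (s.O j) where
  toFun σ := s.rho j (s.toGam σ)
  map_one' := by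
    have : s.toGam 1 = 1 := rfl
    rw [this, map_one]
  map_mul' a b := by
    have : s.toGam (a * b) = s.toGam a * s.toGam b := rfl
    rw [this, map_mul]

theorem at_mul (j : ι) (σ : s.N) (γ : s.Gam) :
    s.at' j (s.toGam σ * γ) = s.actHom j σ (s.at' j γ) := by
  unfold at'
  rw [map_mul]
  rfl

/-- the point `γ x` of the product -/
def point (γ : s.Gam) : ∀ j, Y j := fun j => s.pt j (s.at' j γ)

/-- the Galois orbit `Gal(Qbar/F) x`, a finite subset of the product -/
def orbit : Set (∀ j, Y j) := Set.range s.point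

/-- the mean of a function over the Galois orbit -/
noncomputable def mean (Φ : (∀ j, Y j) → ℝ) : ℝ :=
  (∑ᶠ y ∈ s.orbit, Φ y) / (s.orbit.ncard : ℝ)

/-- the subgroup of `N` generated by the `m`-th powers -/
def pow (m : ℕ) : Subgroup s.N := Subgroup.closure {h | ∃ u : s.N, h = u ^ m}

/-- **The tori of the coordinates are independent (with exponent `m`)**: for every `j` some element of
the group ring `ℤ[G]` acts on `μ_j` as multiplication by `m` and kills all other `μ_k`. -/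
def Independent (m : ℕ) : Prop :=
  ∀ j, ∃ e : s.G → ℤ, ∑ g, e g • (g • s.mu j) = m • s.mu j ∧
    ∀ k, k ≠ j → ∑ g, e g • (g • s.mu k) = 0

/-- conjugation on `N` -/
def cj (g : s.G) (σ : s.N) : s.N := ⟨g * σ * g⁻¹, s.normal.conj_mem σ σ.2 g⟩

/-- conjugation by an element of `G` as an automorphism of `N` -/
def cjHom (g : s.G) : s.N →* s.N where
  toFun := s.cj g
  map_one' := by
    apply Subtype.ext
    simp [cj]
  map_mul' a b := by
    apply Subtype.ext
    simp [cj]

theorem r_zero (j : ι) : s.r j 0 = 1 := by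
  have h := s.r_add j 0 0
  rw [add_zero] at h
  exact left_eq_mul.1 h

theorem r_neg (j : ι) (ν : s.X j) : s.r j (-ν) = (s.r j ν)⁻¹ := by
  rw [eq_inv_iff_mul_eq_one, ← s.r_add, neg_add_cancel, s.r_zero]

theorem r_nsmul (j : ι) (ν : s.X j) (n : ℕ) : s.r j (n • ν) = s.r j ν ^ n := by
  induction n with
  | zero => rw [zero_smul, pow_zero, s.r_zero]
  | succ n ih => rw [succ_nsmul, s.r_add, ih, pow_succ]

theorem r_zsmul (j : ι) (ν : s.X j) (n : ℤ) : s.r j (n • ν) = s.r j ν ^ n := by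
  cases n with
  | ofNat n => simp only [Int.ofNat_eq_natCast, natCast_zsmul, zpow_natCast, s.r_nsmul]
  | negSucc n => rw [negSucc_zsmul, s.r_neg, s.r_nsmul, zpow_negSucc]

theorem r_sum (j : ι) {T : Type} (S : Finset T) (ν : T → s.X j) :
    s.r j (∑ t ∈ S, ν t) = ∏ t ∈ S, s.r j (ν t) := by
  classical
  induction S using Finset.induction_on with
  | empty => rw [sum_empty, prod_empty, s.r_zero]
  | insert a S ha ih => rw [sum_insert ha, prod_insert ha, s.r_add, ih]

theorem r_cj (j : ι) (g : s.G) (ν : s.X j) (σ : s.N) : s.r j ν (s.cj g σ) = s.r j (g⁻¹ • ν) σ :=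
  s.r_conj j g ν σ σ.2

/-- the action of an element of the group ring on `N`, in some order -/
noncomputable def op (e : s.G → ℤ) (σ : s.N) : s.N :=
  ((univ : Finset s.G).toList.map fun g => (s.cj g⁻¹ σ) ^ (e g)).prod

theorem r_op (j : ι) (e : s.G → ℤ) (σ : s.N) :
    s.r j (s.mu j) (s.op e σ) = s.r j (∑ g, e g • (g • s.mu j)) σ := by
  unfold op
  rw [map_list_prod, List.map_map, Finset.prod_map_toList, s.r_sum, MonoidHom.finsetProd_apply]
  refine prod_congr rfl fun g _ => ?_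
  rw [Function.comp_apply, map_zpow, s.r_cj, inv_inv, s.r_zsmul, MonoidHom.zpow_apply]

/-- elements with the same image under the reciprocity map act in the same way -/
theorem at_eq (j : ι) {a b : s.N} (h : s.r j (s.mu j) a = s.r j (s.mu j) b) :
    s.at' j (s.toGam a) = s.at' j (s.toGam b) := by
  have h1 : s.r j (s.mu j) (b⁻¹ * a) = 1 := by rw [map_mul, map_inv, h, inv_mul_cancel]
  have h2 : s.rho j (s.toGam (b⁻¹ * a)) (s.x j) = s.x j :=
    s.reciprocity j ((b⁻¹ * a : s.N) : s.G) (b⁻¹ * a : s.N).2 h1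
  have h3 : s.toGam (b⁻¹ * a) = (s.toGam b)⁻¹ * s.toGam a := rfl
  rw [h3, map_mul, map_inv, Equiv.Perm.mul_apply, Equiv.Perm.inv_eq_iff_eq] at h2
  exact h2

/-- **Separation at the point `x`.** -/
theorem separation {m : ℕ} (h : s.Independent m) (j : ι) (v : s.N) (hv : v ∈ s.pow m) :
    ∃ σ : s.N, s.r j (s.mu j) σ = s.r j (s.mu j) v ∧ ∀ k, k ≠ j → s.r k (s.mu k) σ = 1 := by
  induction hv using Subgroup.closure_induction with
  | mem x hx =>
    obtain ⟨u, rfl⟩ := hx
    obtain ⟨e, h1, h2⟩ := h j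
    refine ⟨s.op e u, ?_, fun k hk => ?_⟩
    · rw [s.r_op, h1, s.r_nsmul, map_pow, MonoidHom.pow_apply]
    · rw [s.r_op, h2 k hk, s.r_zero, MonoidHom.one_apply]
  | one => exact ⟨1, rfl, fun k _ => map_one _⟩
  | mul a b _ _ iha ihb =>
    obtain ⟨σ, h1, h2⟩ := iha
    obtain ⟨τ, h3, h4⟩ := ihb
    exact ⟨σ * τ, by rw [map_mul, map_mul, h1, h3], fun k hk => by
      rw [map_mul, h2 k hk, h4 k hk, one_mul]⟩
  | inv a _ ih =>
    obtain ⟨σ, h1, h2⟩ := ih
    exact ⟨σ⁻¹, by rw [map_inv, map_inv, h1], fun k hk => by rw [map_inv, h2 k hk, inv_one]⟩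

theorem cj_mem_pow {m : ℕ} (g : s.G) {v : s.N} (hv : v ∈ s.pow m) : s.cj g v ∈ s.pow m := by
  induction hv using Subgroup.closure_induction with
  | mem x hx =>
    obtain ⟨u, rfl⟩ := hx
    refine Subgroup.subset_closure ⟨s.cj g u, ?_⟩
    change s.cjHom g (u ^ m) = (s.cjHom g u) ^ m
    rw [map_pow]
  | one =>
    change s.cjHom g 1 ∈ _
    rw [map_one]
    exact one_mem _
  | mul a b _ _ iha ihb =>
    change s.cjHom g (a * b) ∈ _
    rw [map_mul]
    exact mul_mem iha ihb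
  | inv a _ ih =>
    change s.cjHom g a⁻¹ ∈ _
    rw [map_inv]
    exact inv_mem ih

/-- **Separation at all conjugates of `x`.** -/
theorem separation_at {m : ℕ} (h : s.Independent m) (j : ι) (γ : s.Gam) (v : s.N)
    (hv : v ∈ s.pow m) :
    ∃ σ : s.N, (∀ n : s.N, s.actHom j (σ * n) (s.at' j γ) = s.actHom j (v * n) (s.at' j γ)) ∧
      ∀ k, k ≠ j → ∀ n : s.N, s.actHom k (σ * n) (s.at' k γ) = s.actHom k n (s.at' k γ) := by
  obtain ⟨τ, h1, h2⟩ := s.separation h j (s.cj (γ : s.G)⁻¹ v) (s.cj_mem_pow _ hv)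
  have key : ∀ (k : ι) (a b : s.N),
      (s.r k (s.mu k) (s.cj (γ : s.G)⁻¹ a) = s.r k (s.mu k) (s.cj (γ : s.G)⁻¹ b)) →
      s.actHom k a (s.at' k γ) = s.actHom k b (s.at' k γ) := by
    intro k a b hab
    have h3 := s.at_eq k hab
    rw [← s.at_mul, ← s.at_mul]
    have h4 : ∀ c : s.N, s.toGam c * γ = γ * s.toGam (s.cj (γ : s.G)⁻¹ c) := by
      intro c
      apply Subtype.ext
      simp [toGam, cj, mul_assoc]
    rw [h4, h4]
    unfold at' at h3 ⊢
    rw [map_mul, map_mul, Equiv.Perm.mul_apply, Equiv.Perm.mul_apply, h3]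
  have hcc : s.cj (γ : s.G)⁻¹ (s.cj (γ : s.G) τ) = τ := by
    apply Subtype.ext
    simp [cj, mul_assoc]
  have hm : ∀ (g : s.G) (a b : s.N), s.cj g (a * b) = s.cj g a * s.cj g b := fun g a b =>
    map_mul (s.cjHom g) a b
  refine ⟨s.cj (γ : s.G) τ, fun n => key j _ _ ?_, fun k hk n => key k _ _ ?_⟩
  · rw [hm, hm, map_mul, map_mul, hcc, h1]
  · rw [hm, map_mul, hcc, h2 k hk, one_mul]

/-- **The Galois orbit contains a product.** -/
theorem realise [Fintype ι] {m : ℕ} (h : s.Independent m) (v : ι → s.N) (hv : ∀ j, v j ∈ s.pow m) :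
    ∃ σ : s.N, ∀ j, s.r j (s.mu j) σ = s.r j (s.mu j) (v j) := by
  classical
  suffices h : ∀ S : Finset ι, ∃ σ : s.N, (∀ j ∈ S, s.r j (s.mu j) σ = s.r j (s.mu j) (v j)) ∧
      ∀ j ∉ S, s.r j (s.mu j) σ = 1 by
    obtain ⟨σ, h1, -⟩ := h univ
    exact ⟨σ, fun j => h1 j (mem_univ j)⟩
  intro S
  induction S using Finset.induction_on with
  | empty => exact ⟨1, by simp, fun j _ => map_one _⟩
  | @insert a S ha ih =>
    obtain ⟨σ, h1, h2⟩ := ih
    obtain ⟨τ, h3, h4⟩ := s.separation h a (v a) (hv a)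
    refine ⟨σ * τ, fun j hj => ?_, fun j hj => ?_⟩
    · rcases mem_insert.1 hj with rfl | hj
      · rw [map_mul, h2 j ha, h3, one_mul]
      · have : j ≠ a := fun h => ha (h ▸ hj)
        rw [map_mul, h1 j hj, h4 j this, mul_one]
    · rw [mem_insert, not_or] at hj
      rw [map_mul, h2 j hj.2, h4 j hj.1, one_mul]

end CMPoint

end Pool.Agent.N210.SV
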